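import Pool.Agent.H322R2.Red3

/-!
# Function-field reduction to the monic model
-/

set_option autoImplicit false

open Polynomial Pool.Agent.H322R2

namespace Pool.Agent.Y852.FFRed

theorem toB_shE_aeval (u : ℚ) (p : ℚ[X]) : toB ℚ (shE ℚ u
    (aeval (MvPolynomial.X 1 - MvPolynomial.C u * MvPolynomial.X 0 : MvPolynomial (Fin 2) ℚ) p)) =
      C p := by
  have h1 : toB ℚ (shE ℚ u (MvPolynomial.X 1 - MvPolynomial.C u * MvPolynomial.X 0)) =
      C X := by
    rw [shE_apply]
    simp
  induction p using Polynomial.induction_on' with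
  | add p q hp hq => rw [map_add, map_add, map_add, hp, hq, C_add]
  | monomial n a =>
    rw [aeval_monomial, map_mul, map_mul, map_pow, map_pow, h1, MvPolynomial.algebraMap_eq]
    have h2 : shE ℚ u (MvPolynomial.C a) = MvPolynomial.C a := by
      rw [← MvPolynomial.algebraMap_eq]; exact (shE ℚ u).commutes a
    rw [h2, toB_C, ← C_pow, ← C_mul, C_mul_X_pow_eq_monomial]

theorem ff_reduce (F : MvPolynomial (Fin 2) ℤ)
    (hirr : Irreducible (MvPolynomial.map (Int.castRingHom ℚ) F)) (u : ℕ) (hc : lc F u ≠ 0)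
    (hd : 1 ≤ F.totalDegree) {L : Type*} [Field L] [Algebra ℚ L]
    (π : MvPolynomial (Fin 2) ℚ →ₐ[ℚ] L)
    (hker : ∀ w, π w = 0 ↔ MvPolynomial.map (Int.castRingHom ℚ) F ∣ w)
    (hsurj : ∀ z : L, ∃ w1 w2, π w2 ≠ 0 ∧ π w2 * z = π w1) (a b : L)
    (ha : a = π (MvPolynomial.X 1) - (u : L) * π (MvPolynomial.X 0))
    (hb : b = ((lc F u : ℤ) : L) * π (MvPolynomial.X 0)) :
    ev a b (GG F u) = 0 ∧ Transcendental ℚ a ∧
    (∀ z : L, ∃ w1 ∈ Algebra.adjoin ℚ {a, b}, ∃ w2 ∈ Algebra.adjoin ℚ {a, b},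
      w2 ≠ 0 ∧ w2 * z = w1) ∧
    ∀ A : ValuationSubring L, (∀ q : ℚ, algebraMap ℚ L q ∈ A) →
      ((π (MvPolynomial.X 0) ∈ A ∧ π (MvPolynomial.X 1) ∈ A) ↔ (a ∈ A ∧ b ∈ A)) := by
  haveI : CharZero L := algebraRat.charZero L
  have hcL : ((lc F u : ℤ) : L) ≠ 0 := by exact_mod_cast hc
  set x := π (MvPolynomial.X 0) with hx
  set y := π (MvPolynomial.X 1) with hy
  have hxb : x = algebraMap ℚ L ((lc F u : ℚ)⁻¹) * b := by
    rw [hb, map_inv₀, map_intCast]
    field_simp
  have hya : y = a + (u : L) * x := by rw [ha]; ring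
  refine ⟨?_, ?_, ?_, ?_⟩
  · -- the equation
    have h1 := integralNormalization_eval₂_leadingCoeff_mul (p := F2 F u)
      (by rw [F2_natDegree hc]; exact hd) (evf a) x
    rw [F2_leadingCoeff hc, evf_C] at h1
    have h2 : ev a b (GG F u) = eval₂ (evf a) (((lc F u : ℤ) : L) * x) (integralNormalization (F2 F u)) := by
      rw [hb]; rfl
    have h3 : eval₂ (evf a) x (F2 F u) = 0 := by
      have h4 : eval₂ (evf a) x (F2 F u) = ev a x (toB ℤ (shE ℤ u F)) := rfl
      rw [h4, ev_toB]
      have h5 : (MvPolynomial.eval₂Hom (Int.castRingHom L) ![x, a]).comp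
          (shE ℤ (u : ℤ) : MvPolynomial (Fin 2) ℤ →+* MvPolynomial (Fin 2) ℤ)
          = (π : MvPolynomial (Fin 2) ℚ →+* L).comp (MvPolynomial.map (Int.castRingHom ℚ)) := by
        apply MvPolynomial.ringHom_ext
        · intro r
          simp [shE_apply]
        · intro i
          fin_cases i
          · simp [shE_apply, hx]
          · simp [shE_apply, ← hy, hya]
      have h6 := congrArg (fun g : MvPolynomial (Fin 2) ℤ →+* L => g F) h5
      have h7 : π (MvPolynomial.map (Int.castRingHom ℚ) F) = 0 := (hker _).2 dvd_rfl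
      simp only [RingHom.comp_apply] at h6
      refine Eq.trans ?_ (h6.trans h7)
      rfl
    rw [h2]
    rw [h1, h3, mul_zero]
  · -- transcendence
    intro halg
    obtain ⟨p, hp0, hp⟩ := halg
    have hinj : Function.Injective (mapRingHom (Int.castRingHom ℚ)) :=
      Polynomial.map_injective _ (RingHom.injective_int _)
    set w : MvPolynomial (Fin 2) ℚ :=
      aeval (MvPolynomial.X 1 - MvPolynomial.C (u : ℚ) * MvPolynomial.X 0) p with hw
    have h1 : π w = 0 := by
      rw [hw, ← aeval_algHom_apply]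
      have : π (MvPolynomial.X 1 - MvPolynomial.C (u : ℚ) * MvPolynomial.X 0) = a := by
        rw [map_sub, map_mul, ha]
        congr 2
        have := π.commutes (u : ℚ)
        rw [MvPolynomial.algebraMap_eq] at this
        rw [this]; simp
      rw [this, hp]
    have h2 := (hker w).1 h1
    have h3 : toB ℚ (shE ℚ (u : ℚ) (MvPolynomial.map (Int.castRingHom ℚ) F)) ∣
        toB ℚ (shE ℚ (u : ℚ) w) := map_dvd _ (map_dvd _ h2)
    have h4 : toB ℚ (shE ℚ (u : ℚ) w) = C p := toB_shE_aeval (u : ℚ) p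
    have h5 : toB ℚ (shE ℚ (u : ℚ) (MvPolynomial.map (Int.castRingHom ℚ) F)) =
        (F2 F u).map (mapRingHom (Int.castRingHom ℚ)) := by
      have := shE_map ℤ (Int.castRingHom ℚ) (u : ℤ) F
      simp only [eq_intCast, Int.cast_natCast] at this
      rw [this, toB_map]; rfl
    rw [h4, h5] at h3
    have h6 := natDegree_le_of_dvd h3 (C_ne_zero.2 hp0)
    rw [natDegree_C, natDegree_map_eq_of_injective hinj, F2_natDegree hc] at h6
    omega
  · -- fractions
    have hmem : ∀ w, π w ∈ Algebra.adjoin ℚ {a, b} := by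
      have ham : a ∈ Algebra.adjoin ℚ {a, b} := Algebra.subset_adjoin (by simp)
      have hbm : b ∈ Algebra.adjoin ℚ {a, b} := Algebra.subset_adjoin (by simp)
      have hxm : x ∈ Algebra.adjoin ℚ {a, b} := by
        rw [hxb]; exact mul_mem (Subalgebra.algebraMap_mem _ _) hbm
      have hym : y ∈ Algebra.adjoin ℚ {a, b} := by
        rw [hya]; exact add_mem ham (mul_mem (natCast_mem _ _) hxm)
      intro w
      induction w using MvPolynomial.induction_on with
      | C q =>
        have := π.commutes q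
        rw [MvPolynomial.algebraMap_eq] at this
        rw [this]; exact Subalgebra.algebraMap_mem _ _
      | add p q hp hq => rw [map_add]; exact add_mem hp hq
      | mul_X p i hp =>
        rw [map_mul]
        refine mul_mem hp ?_
        fin_cases i
        · exact hxm
        · exact hym
    intro z
    obtain ⟨w1, w2, h2, h3⟩ := hsurj z
    exact ⟨π w1, hmem w1, π w2, hmem w2, h2, h3⟩
  · -- valuation rings
    intro A hA
    constructor
    · rintro ⟨h1, h2⟩
      refine ⟨?_, ?_⟩
      · rw [ha]; exact sub_mem h2 (mul_mem (natCast_mem _ _) h1)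
      · rw [hb]; exact mul_mem (intCast_mem _ _) h1
    · rintro ⟨h1, h2⟩
      have h3 : x ∈ A := by rw [hxb]; exact mul_mem (hA _) h2
      refine ⟨h3, ?_⟩
      rw [hya]; exact add_mem h1 (mul_mem (natCast_mem _ _) h3)

end Pool.Agent.Y852.FFRed
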